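import Pool.Agent.N145.SX.Stm
import Pool.Agent.N145.PC.Fib

/-!
Project SX, part CLOSED: the constants.
-/

set_option autoImplicit false
set_option linter.overlappingInstances false
set_option linter.unusedSectionVars false
set_option maxHeartbeats 4000000
set_option synthInstance.maxHeartbeats 400000

open Polynomial FF IsDedekindDomain IntermediateField Module

namespace Pool.Agent.N160.SX

open Pool.Agent.W603.LV Pool.Agent.W619.PQ Pool.Agent.N145.PC

section

variable {K : Type} [Field K] [Algebra ℂ K] {n : ℕ} {B C : IntermediateField ℂ K}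

theorem gen_top (hsup : B ⊔ C = ⊤) : IntermediateField.adjoin B (C : Set K) = ⊤ := by
  rw [eq_top_iff]
  intro z _
  have h1 : B ⊔ C ≤ (IntermediateField.adjoin B (C : Set K)).restrictScalars ℂ := by
    refine sup_le ?_ ?_
    · intro y hy
      rw [mem_restrictScalars]
      exact (IntermediateField.adjoin B (C : Set K)).algebraMap_mem ⟨y, hy⟩
    · intro y hy
      rw [mem_restrictScalars]
      exact IntermediateField.subset_adjoin _ _ hy
  exact h1 (by rw [hsup]; trivial)

/-- nonconstant functions on the curve are transcendental over the functions on the variety -/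
theorem not_alg' [IsFF ℂ C] (hsup : B ⊔ C = ⊤) (hB : Algebra.trdeg ℂ B = n)
    (hK : Algebra.trdeg ℂ K = (n + 1 : ℕ)) {z : C} (hz : Transcendental ℂ z) :
    ¬ IsAlgebraic B (z : K) := by
  intro h
  have hgen := gen_top hsup
  -- every element of C is algebraic over B
  have hC : ∀ y : C, IsAlgebraic B (y : K) := by
    intro y
    let A : IntermediateField B K := algebraicClosure B K
    have hzA : (z : K) ∈ A := mem_algebraicClosure_iff.2 h
    have h1 : IsAlgebraic (IntermediateField.adjoin ℂ {z}) y := (IsFF.isAlgebraic hz).isAlgebraic y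
    let A' : IntermediateField ℂ C := (A.restrictScalars ℂ).comap C.val
    have hle : IntermediateField.adjoin ℂ {z} ≤ A' := by
      rw [IntermediateField.adjoin_le_iff, Set.singleton_subset_iff]
      exact hzA
    let f : IntermediateField.adjoin ℂ {z} →+* A :=
      { toFun := fun w => ⟨((w : C) : K), hle w.2⟩
        map_one' := rfl
        map_mul' := fun a b => rfl
        map_zero' := rfl
        map_add' := fun a b => rfl }
    have h2 : IsAlgebraic A (y : K) :=
      h1.ringHom_of_comp_eq f (C.val : C →+* K) f.injective (by ext w; rfl)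
    have h4 : Algebra.IsAlgebraic B A := algebraicClosure.isAlgebraic B K
    exact IsAlgebraic.restrictScalars B h2
  have hall : Algebra.IsAlgebraic B K := by
    have h1 : Algebra.IsAlgebraic B (IntermediateField.adjoin B (C : Set K)) := by
      rw [IntermediateField.isAlgebraic_adjoin_iff_isAlgebraic]
      intro y hy
      exact hC ⟨y, hy⟩
    rw [hgen] at h1
    exact ⟨fun y => by
      have h2 := h1.isAlgebraic (⟨y, trivial⟩ : (⊤ : IntermediateField B K))
      have h3 : IsAlgebraic B (algebraMap (⊤ : IntermediateField B K) K ⟨y, trivial⟩) := h2.algebraMap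
      exact h3⟩
  have h1 := Pool.Agent.Y174.trdeg_LK (r := 1) hB hK
  rw [_root_.trdeg_eq_zero_iff.2 hall] at h1
  exact absurd h1 (by norm_num)

/-- the functions on the variety are algebraically closed in the product -/
theorem closed' [hess : Algebra.EssFiniteType ℂ K] [IsFF ℂ C] (hB : Algebra.trdeg ℂ B = n)
    (hK : Algebra.trdeg ℂ K = (n + 1 : ℕ))
    (hna : ∀ y : C, Transcendental ℂ y → ¬ IsAlgebraic B (y : K))
    (hgen0 : IntermediateField.adjoin B (C : Set K) = ⊤) (z : K)
    (hz : IsAlgebraic B z) : z ∈ B := by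
  classical
  let Ω := AlgebraicClosure K
  let Λ : IntermediateField B Ω := algebraicClosure B Ω
  have hΛ : IsAlgClosed Λ := (algebraicClosure.isAlgClosure B Ω).isAlgClosed
  have hΛalg : Algebra.IsAlgebraic B Λ := inferInstance
  let E : IntermediateField Λ Ω := IntermediateField.adjoin Λ (Set.range (algebraMap K Ω))
  have hTL : IsScalarTower ℂ B Ω := IsScalarTower.of_algebraMap_eq fun z => by
    rw [IsScalarTower.algebraMap_apply ℂ K Ω]
    rfl
  have hTΛ : IsScalarTower ℂ Λ Ω := IsScalarTower.of_algebraMap_eq fun z => by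
    rw [IsScalarTower.algebraMap_apply ℂ B Ω]
    rfl
  let φ0 : K →+* E :=
    { toFun := fun z => ⟨algebraMap K Ω z, IntermediateField.subset_adjoin _ _ ⟨z, rfl⟩⟩
      map_one' := Subtype.ext (map_one _)
      map_mul' := fun a b => Subtype.ext (map_mul _ _ _)
      map_zero' := Subtype.ext (map_zero _)
      map_add' := fun a b => Subtype.ext (map_add _ _ _) }
  let iKF : Algebra K E := φ0.toAlgebra
  have hKF : ∀ z : K, ((algebraMap K E z : E) : Ω) = algebraMap K Ω z := fun z => rfl
  have hT1 : IsScalarTower B K E := IsScalarTower.of_algebraMap_eq fun z => Subtype.ext rfl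
  have hT2 : IsScalarTower ℂ K E := IsScalarTower.of_algebraMap_eq fun z => by
    apply Subtype.ext
    rw [hKF, ← IsScalarTower.algebraMap_apply ℂ K Ω]
    rfl
  have hT3 : IsScalarTower ℂ B Λ := inferInstance
  have hT4 : IsScalarTower B Λ E := IsScalarTower.of_algebraMap_eq fun z => Subtype.ext rfl
  have hT5 : IsScalarTower ℂ Λ E := inferInstance
  have hgenF : IntermediateField.adjoin Λ (Set.range (algebraMap K E)) = ⊤ := by
    have h1 : (IntermediateField.adjoin Λ (Set.range (algebraMap K E))).map E.val =
        (⊤ : IntermediateField Λ E).map E.val := by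
      rw [IntermediateField.adjoin_map, ← AlgHom.fieldRange_eq_map,
        IntermediateField.fieldRange_val]
      congr 1
      ext z
      simp only [Set.mem_image, Set.mem_range]
      constructor
      · rintro ⟨_, ⟨y, rfl⟩, rfl⟩
        exact ⟨y, rfl⟩
      · rintro ⟨y, rfl⟩
        exact ⟨_, ⟨y, rfl⟩, rfl⟩
    exact IntermediateField.map_injective _ h1
  have hLK : Algebra.trdeg B K = (1 : ℕ) := Pool.Agent.Y174.trdeg_LK (r := 1) hB hK
  have htrF : Algebra.trdeg Λ E = (1 : ℕ) :=
    Pool.Agent.Y174.trdeg_F (L := B) (K := K) hLK hgenF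
  have hessF : Algebra.EssFiniteType Λ E := Pool.Agent.Y174.ess_F (k := ℂ) (K := K) hess hgenF
  have hFF : IsFF Λ E := ⟨hessF, by rw [htrF]; simp⟩
  have htransc : ∀ z : K, ¬ IsAlgebraic B z → Transcendental Λ (algebraMap K E z) := by
    intro z hz h
    apply hz
    have h1 : IsAlgebraic B (algebraMap K E z) := h.restrictScalars B
    exact (isAlgebraic_algebraMap_iff (R := B) (algebraMap K E).injective).1 h1
  have hΛ0 : CharZero Λ := charZero_of_injective_algebraMap (algebraMap ℂ Λ).injective
  let ψ : C →ₐ[ℂ] E := (IsScalarTower.toAlgHom ℂ K E).comp C.val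
  let iF0 : Algebra C E := ψ.toRingHom.toAlgebra
  have hψ : ∀ y : C, algebraMap C E y = algebraMap K E (y : K) := fun y => rfl
  have hT6 : IsScalarTower ℂ C E :=
    IsScalarTower.of_algebraMap_eq fun c => (ψ.commutes c).symm
  let v := Basis.ofVectorSpace ℂ C
  have hli := lin_indep (k := ℂ) (F0 := C) (Λ := Λ) (E := E)
    (fun y hy => htransc y (hna y hy)) v v.linearIndependent
  -- quotients
  have hz' : z ∈ IntermediateField.adjoin B (C : Set K) := by rw [hgen0]; trivial
  rw [IntermediateField.mem_adjoin_iff_div] at hz'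
  obtain ⟨r, hr, s, hs, hrs⟩ := hz'
  by_cases hs0 : s = 0
  · rw [hrs, hs0, div_zero]
    exact B.zero_mem
  obtain ⟨a, ha⟩ := Finsupp.mem_span_range_iff_exists_finsupp.1 (mem_span_of_adjoin v hr)
  obtain ⟨b, hb⟩ := Finsupp.mem_span_range_iff_exists_finsupp.1 (mem_span_of_adjoin v hs)
  have hval : ∀ (a : _ →₀ B), algebraMap K E (a.sum fun i c => c • (v i : K)) =
      Finsupp.linearCombination Λ (fun i => algebraMap C E (v i))
        (a.mapRange (algebraMap B Λ) (map_zero _)) := by
    intro a
    rw [Finsupp.linearCombination_apply, Finsupp.sum_mapRange_index (by intro i; exact zero_smul _ _),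
      Finsupp.sum, Finsupp.sum, map_sum]
    refine Finset.sum_congr rfl fun i _ => ?_
    rw [Algebra.smul_def, map_mul, hψ, Algebra.smul_def, ← IsScalarTower.algebraMap_apply B Λ E,
      ← IsScalarTower.algebraMap_apply B K E]
  have hzΛ : IsAlgebraic B (algebraMap K Ω z) := hz.algebraMap
  let zΛ : Λ := ⟨algebraMap K Ω z, mem_algebraicClosure_iff.2 hzΛ⟩
  have hzE : algebraMap Λ E zΛ = algebraMap K E z := Subtype.ext rfl
  have h1 : Finsupp.linearCombination Λ (fun i => algebraMap C E (v i))
      (zΛ • b.mapRange (algebraMap B Λ) (map_zero _)) =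
      Finsupp.linearCombination Λ (fun i => algebraMap C E (v i))
      (a.mapRange (algebraMap B Λ) (map_zero _)) := by
    rw [map_smul, ← hval, ← hval, ha, hb, Algebra.smul_def, hzE, ← map_mul]
    congr 1
    rw [hrs]
    field_simp
  have h2 := hli h1
  obtain ⟨i, hi⟩ : ∃ i, b i ≠ 0 := by
    by_contra hcon
    push Not at hcon
    apply hs0
    rw [← hb]
    refine Finset.sum_eq_zero fun i _ => ?_
    change b i • (v i : K) = 0
    rw [hcon, zero_smul]
  have h3 := DFunLike.congr_fun h2 i
  rw [Finsupp.smul_apply, Finsupp.mapRange_apply, Finsupp.mapRange_apply, smul_eq_mul] at h3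
  have h4 := congrArg (Subtype.val : Λ → Ω) h3
  have h5 : algebraMap K Ω z * algebraMap K Ω (b i : K) = algebraMap K Ω (a i : K) := h4
  rw [← map_mul] at h5
  have h6 := (algebraMap K Ω).injective h5
  have h7 : (b i : K) ≠ 0 := fun h => hi (Subtype.ext h)
  have h8 : z = (a i : K) / (b i : K) := by
    rw [eq_div_iff h7]
    exact h6
  rw [h8]
  exact B.div_mem (a i).2 (b i).2

end

theorem CLOSED : Pool.Agent.N145.SX.S_CLOSED := by
  intro K _ _ _ n E C _ hsup hE hK
  have h1 : ∀ z : C, Transcendental ℂ z → ¬ IsAlgebraic E (z : K) :=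
    fun z hz => not_alg' hsup hE hK hz
  exact ⟨h1, gen_top hsup, fun z hz => closed' hE hK h1 (gen_top hsup) z hz⟩

end Pool.Agent.N160.SX
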